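import Pool.Agent.Q267.E8.Stm2

/-!
# Project E8 (helper267), job II
-/

set_option autoImplicit false

namespace Pool.Agent.Q192.E8

open Finset Polynomial Pool.Agent.Q267.CDE Pool.Agent.Q267.MW Pool.Agent.Q267.E8

section sums

variable {A : Type} [CommRing A]

theorem coeff_sum (a : ℕ → A) (N n : ℕ) :
    (∑ k ∈ range N, C (a k) * X ^ k : A[X]).coeff n = if n < N then a n else 0 := by
  rw [finsetSum_coeff]
  simp only [coeff_C_mul, coeff_X_pow, mul_ite, mul_one, mul_zero]
  rw [Finset.sum_ite_eq (range N) n]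
  simp only [mem_range]

theorem reflect_sum (a : ℕ → A) (m : ℕ) :
    (∑ k ∈ range (m + 1), C (a k) * X ^ (m - k) : A[X]) = ∑ k ∈ range (m + 1), C (a (m - k)) * X ^ k := by
  rw [← Finset.sum_range_reflect (fun k => C (a (m - k)) * X ^ k) (m + 1)]
  refine sum_congr rfl fun k hk => ?_
  rw [mem_range] at hk
  rw [show m + 1 - 1 - k = m - k by omega, show m - (m - k) = k by omega]

end sums

variable (p : ℕ) [hp : Fact p.Prime]

/-- the coefficients of `D` -/
noncomputable def dk (m k : ℕ) : ZMod p :=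
  2 * (∑ j ∈ range k, (2 * (j : ZMod p) + 1)⁻¹) * ((m.choose k : ℕ) : ZMod p) ^ 2

/-- the squares of the binomial coefficients -/
def ak (m k : ℕ) : ZMod p := ((m.choose k : ℕ) : ZMod p) ^ 2

theorem ak_zero {m k : ℕ} (h : m < k) : ak p m k = 0 := by
  rw [ak, Nat.choose_eq_zero_of_lt h, Nat.cast_zero, zero_pow two_ne_zero]

theorem ak_symm {m k : ℕ} (h : k ≤ m) : ak p m (m - k) = ak p m k := by
  rw [ak, ak, Nat.choose_symm h]

theorem lgm (hLG : S_LG) {m : ℕ} (hm : p = 2 * m + 1) {n : ℕ} (hn : n ≤ m) :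
    ∑ k ∈ range n, ak p m k * ((n : ZMod p) - k)⁻¹ = 2 * dk p m n := by
  have h2 : (2 : ZMod p) ≠ 0 := by
    have h1 := hp.out.two_le
    have := cast_ne p 2 two_pos (by omega)
    exact_mod_cast this
  have hpz : (2 * (m : ZMod p) + 1) = 0 := by
    have : ((2 * m + 1 : ℕ) : ZMod p) = 0 := by rw [← hm]; exact CharP.cast_eq_zero _ _
    exact_mod_cast this
  have h := hLG (ZMod p) (ak p m) n h2 (by rw [ak, Nat.choose_zero_right, Nat.cast_one, one_pow]) ?_ ?_ ?_
  · rw [h, dk, ak]
    ring
  · intro k hk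
    have h3 : ((m.choose (k + 1) * (k + 1) : ℕ) : ZMod p) = ((m.choose k * (m - k) : ℕ) : ZMod p) := by
      rw [Nat.choose_succ_right_eq]
    rw [Nat.cast_mul, Nat.cast_mul, Nat.cast_sub (by omega : k ≤ m), Nat.cast_add, Nat.cast_one] at h3
    rw [ak, ak]
    have h4 : 2 * (m : ZMod p) = -1 := by linear_combination hpz
    calc 4 * ((k : ZMod p) + 1) ^ 2 * ((m.choose (k + 1) : ℕ) : ZMod p) ^ 2
        = (2 * (((m.choose (k + 1) : ℕ) : ZMod p) * (k + 1))) ^ 2 := by ring
      _ = (((m.choose k : ℕ) : ZMod p) * (2 * (m : ZMod p) - 2 * k)) ^ 2 := by rw [h3]; ring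
      _ = _ := by rw [h4]; ring
  · intro k hk
    have := cast_ne p (k + 1) (by omega) (by omega)
    exact_mod_cast this
  · intro k hk
    have := cast_ne p (2 * k + 1) (by omega) (by omega)
    exact_mod_cast this

/-- the polynomials modulo `p` -/
noncomputable def Db (m : ℕ) : (ZMod p)[X] := ∑ k ∈ range (m + 1), C (dk p m k) * X ^ k
/-- the polynomials modulo `p` -/
noncomputable def Sb (m : ℕ) : (ZMod p)[X] := ∑ k ∈ range (m + 1), C (dk p m k) * X ^ (m - k)
/-- the polynomials modulo `p` -/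
noncomputable def Kb (m : ℕ) : (ZMod p)[X] := ∑ k ∈ range (m + 1), C (ak p m k) * X ^ k
/-- the polynomials modulo `p` -/
noncomputable def Lb : (ZMod p)[X] := ∑ i ∈ range p, C (-((i : ℕ) : ZMod p)⁻¹) * X ^ i

theorem coeff_LK {m : ℕ} (n : ℕ) : (Kb p m * Lb p).coeff n =
    ∑ k ∈ range (n + 1), ak p m k * (if n - k < p then -((n - k : ℕ) : ZMod p)⁻¹ else 0) := by
  rw [coeff_mul, Finset.Nat.sum_antidiagonal_eq_sum_range_succ (fun i j => (Kb p m).coeff i * (Lb p).coeff j)]
  refine sum_congr rfl fun k hk => ?_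
  rw [Kb, Lb, coeff_sum, coeff_sum]
  by_cases h : k < m + 1
  · rw [if_pos h]
  · rw [if_neg h, ak_zero p (by omega)]

theorem ident (hLG : S_LG) (hLM : S_LM) {m : ℕ} (hm : p = 2 * m + 1) :
    2 * Db p m + Kb p m * Lb p - 2 * (X ^ p * Sb p m) = 0 := by
  have hpc : ((p : ℕ) : ZMod p) = 0 := CharP.cast_eq_zero _ _
  ext n
  rw [coeff_sub, coeff_add, coeff_zero, coeff_LK, show (2 : (ZMod p)[X]) = C 2 from (map_ofNat C 2).symm, coeff_C_mul,
    coeff_C_mul, coeff_X_pow_mul', Sb, reflect_sum, coeff_sum, Db, coeff_sum]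
  rcases Nat.lt_or_ge m n with hn | hn
  · -- only the terms with `k ≤ m`
    have hres : ∑ k ∈ range (n + 1), ak p m k * (if n - k < p then -((n - k : ℕ) : ZMod p)⁻¹ else 0) =
        ∑ k ∈ range (m + 1), ak p m k * (if n - k < p then -((n - k : ℕ) : ZMod p)⁻¹ else 0) := by
      symm
      apply sum_subset
      · intro k hk
        rw [mem_range] at hk ⊢
        omega
      · intro k _ hk
        rw [mem_range] at hk
        rw [ak_zero p (by omega), zero_mul]
    rw [hres, if_neg (by omega : ¬ n < m + 1), mul_zero, zero_add]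
    rcases Nat.lt_or_ge n p with hnp | hnp
    · rw [if_neg (by omega : ¬ p ≤ n), mul_zero, sub_zero]
      have h := hLM p m n hm hn hnp
      rw [← neg_eq_zero, ← h, ← sum_neg_distrib]
      refine sum_congr rfl fun k hk => ?_
      rw [mem_range] at hk
      rw [if_pos (by omega), Nat.cast_sub (by omega), ak]
      ring
    · obtain ⟨j, rfl⟩ := Nat.exists_eq_add_of_le hnp
      rw [if_pos (by omega : p ≤ p + j), Nat.add_sub_cancel_left]
      rcases Nat.lt_or_ge m j with hj | hj
      · rw [if_neg (by omega : ¬ j < m + 1), mul_zero, sub_zero]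
        refine sum_eq_zero fun k hk => ?_
        rw [mem_range] at hk
        rw [if_neg (by omega), mul_zero]
      · rw [if_pos (by omega : j < m + 1), ← lgm p hLG hm (by omega : m - j ≤ m),
          ← Finset.sum_range_reflect (fun k => ak p m k * (if p + j - k < p then -((p + j - k : ℕ) : ZMod p)⁻¹ else 0))
            (m + 1)]
        have hterm : ∀ k ∈ range (m + 1), ak p m (m + 1 - 1 - k) * (if p + j - (m + 1 - 1 - k) < p then
            -((p + j - (m + 1 - 1 - k) : ℕ) : ZMod p)⁻¹ else 0) =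
            if k < m - j then ak p m k * (((m - j : ℕ) : ZMod p) - k)⁻¹ else 0 := by
          intro k hk
          rw [mem_range] at hk
          rw [show m + 1 - 1 - k = m - k by omega, ak_symm p (by omega : k ≤ m)]
          by_cases h : k < m - j
          · rw [if_pos h, if_pos (by omega), neg_inv, Nat.cast_sub (by omega : m - k ≤ p + j), Nat.cast_add,
              Nat.cast_sub (by omega : k ≤ m), Nat.cast_sub (by omega : j ≤ m), hpc]
            congr 2
            ring
          · rw [if_neg h, if_neg (by omega), mul_zero]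
        have hfil : (range (m + 1)).filter (fun k => k < m - j) = range (m - j) := by
          ext k
          rw [mem_filter, mem_range, mem_range]
          omega
        rw [sum_congr rfl hterm, ← sum_filter, hfil, sub_self]
  · rw [if_pos (by omega : n < m + 1), if_neg (by omega : ¬ p ≤ n), ← lgm p hLG hm hn, sum_range_succ, Nat.sub_self,
      Nat.cast_zero, inv_zero, neg_zero, ite_self, mul_zero, add_zero, mul_zero, sub_zero, ← sum_add_distrib]
    refine sum_eq_zero fun k hk => ?_
    rw [mem_range] at hk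
    rw [if_pos (by omega), Nat.cast_sub (by omega)]
    ring

/-! ### Lifting to `ℤ/p²` -/

/-- the polynomials modulo `p²` -/
noncomputable def Dr (m : ℕ) : (R p)[X] := ∑ k ∈ range (m + 1), C (lift p (dk p m k)) * X ^ k
/-- the polynomials modulo `p²` -/
noncomputable def Sr (m : ℕ) : (R p)[X] := ∑ k ∈ range (m + 1), C (lift p (dk p m k)) * X ^ (m - k)
/-- the polynomials modulo `p²` -/
noncomputable def Lr : (R p)[X] := ∑ i ∈ range p, C (lift p (-((i : ℕ) : ZMod p)⁻¹)) * X ^ i

omit hp in
theorem Kf_eq (m : ℕ) : Kf m (X : (R p)[X]) = ∑ k ∈ range (m + 1), C (((m.choose k : ℕ) : R p) ^ 2) * X ^ k := by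
  rw [Kf]
  refine sum_congr rfl fun k _ => ?_
  rw [C_pow, C_eq_natCast]

theorem Ff_eq (hDF : S_DF) {m : ℕ} (hm : p = 2 * m + 1) :
    Ff m (X : (R p)[X]) = Kf m X + C (p : R p) * Dr p m := by
  rw [Kf_eq, Ff, Dr, mul_sum, ← sum_add_distrib]
  refine sum_congr rfl fun k hk => ?_
  rw [mem_range] at hk
  have h := congrArg (C : R p → (R p)[X]) (hDF p m k hm (by omega))
  rw [map_add, map_mul, map_mul, map_mul, C_pow, C_neg, C_1, C_eq_natCast, C_eq_natCast] at h
  rw [h, ← dk]
  ring

theorem Kr_eq (hDF : S_DF) {m : ℕ} (hm : p = 2 * m + 1) :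
    Kr m (X : (R p)[X]) = Kf m X + C (p : R p) * Sr p m := by
  have hK : Kf m (X : (R p)[X]) = ∑ k ∈ range (m + 1), C (((m.choose k : ℕ) : R p) ^ 2) * X ^ (m - k) := by
    rw [reflect_sum, Kf_eq]
    refine sum_congr rfl fun k hk => ?_
    rw [mem_range] at hk
    rw [Nat.choose_symm (by omega : k ≤ m)]
  rw [hK, Kr, Sr, mul_sum, ← sum_add_distrib]
  refine sum_congr rfl fun k hk => ?_
  rw [mem_range] at hk
  have h := congrArg (C : R p → (R p)[X]) (hDF p m k hm (by omega))
  rw [map_add, map_mul, map_mul, map_mul, C_pow, C_neg, C_1, C_eq_natCast, C_eq_natCast] at h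
  rw [h, ← dk]
  ring

theorem Lr_eq (hodd : Odd p) : (1 - X : (R p)[X]) ^ p = 1 - X ^ p + C (p : R p) * Lr p := by
  obtain ⟨q, hq⟩ : ∃ q, p = q + 1 := ⟨p - 1, by have := hp.out.one_le; omega⟩
  have h1 : (1 - X : (R p)[X]) ^ p = ∑ m ∈ range (p + 1), (-X) ^ m * ((p.choose m : ℕ) : (R p)[X]) := by
    rw [show (1 : (R p)[X]) - X = -X + 1 by ring, add_pow]
    refine sum_congr rfl fun m _ => ?_
    rw [one_pow, mul_one]
  have h2 : ∑ m ∈ range p, (-X : (R p)[X]) ^ m * ((p.choose m : ℕ) : (R p)[X]) = 1 + C (p : R p) * Lr p := by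
    have e1 := sum_range_succ' (fun m => (-X : (R p)[X]) ^ m * ((p.choose m : ℕ) : (R p)[X])) q
    have e2 := sum_range_succ' (fun i => C (lift p (-((i : ℕ) : ZMod p)⁻¹)) * (X : (R p)[X]) ^ i) q
    rw [← hq] at e1 e2
    rw [e1, Lr, e2, mul_add, Nat.cast_zero, inv_zero, neg_zero, Nat.choose_zero_right, Nat.cast_one, pow_zero, mul_one,
      mul_sum]
    have e3 : lift p (0 : ZMod p) = 0 := by
      unfold lift
      rw [ZMod.val_zero, Nat.cast_zero]
    rw [e3, C_0, zero_mul, mul_zero, add_zero, add_comm]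
    congr 1
    refine sum_congr rfl fun s hs => ?_
    rw [mem_range] at hs
    have h6 := congrArg (C : R p → (R p)[X]) (choose_p p s (by omega))
    rw [C_mul, C_mul, C_pow, C_neg, C_1, C_eq_natCast] at h6
    rw [neg_pow, Nat.cast_add, Nat.cast_one]
    linear_combination X ^ (s + 1) * h6
  rw [h1, sum_range_succ, h2, Nat.choose_self, hodd.neg_pow, Nat.cast_one]
  ring

/-- `p` times a polynomial with reduction `0` -/
theorem p_mul_zero (P : (R p)[X]) (h : P.map (red p) = 0) : C (p : R p) * P = 0 := by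
  ext n
  rw [coeff_C_mul, coeff_zero]
  have h1 : red p (P.coeff n) = red p 0 := by rw [← coeff_map, h, coeff_zero, map_zero]
  rw [p_mul_eq p _ _ h1, mul_zero]

theorem ii_poly (hLG : S_LG) (hLM : S_LM) (hDF : S_DF) {m : ℕ} (hm : p = 2 * m + 1) :
    (1 + X ^ p + (1 - X) ^ p) * Ff m (X : (R p)[X]) = 2 * (1 - X ^ p) * Kf m X + 2 * X ^ p * Kr m X := by
  have hpp : C (p : R p) * C (p : R p) = (0 : (R p)[X]) := by
    rw [← C_mul, ← pow_two, p_sq, C_0]
  have hid : C (p : R p) * (2 * Dr p m + Kf m X * Lr p - 2 * (X ^ p * Sr p m)) = 0 := by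
    apply p_mul_zero
    have hK : (Kf m (X : (R p)[X])).map (red p) = Kb p m := by
      rw [Kf_eq, Kb, Polynomial.map_sum]
      refine sum_congr rfl fun k _ => ?_
      rw [Polynomial.map_mul, Polynomial.map_pow, map_X, map_C, map_pow, red_nat, ak]
    have hD : (Dr p m).map (red p) = Db p m := by
      rw [Dr, Db, Polynomial.map_sum]
      refine sum_congr rfl fun k _ => ?_
      rw [Polynomial.map_mul, Polynomial.map_pow, map_X, map_C, red_lift]
    have hS : (Sr p m).map (red p) = Sb p m := by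
      rw [Sr, Sb, Polynomial.map_sum]
      refine sum_congr rfl fun k _ => ?_
      rw [Polynomial.map_mul, Polynomial.map_pow, map_X, map_C, red_lift]
    have hL : (Lr p).map (red p) = Lb p := by
      rw [Lr, Lb, Polynomial.map_sum]
      refine sum_congr rfl fun k _ => ?_
      rw [Polynomial.map_mul, Polynomial.map_pow, map_X, map_C, red_lift]
    rw [Polynomial.map_sub, Polynomial.map_add, Polynomial.map_mul, Polynomial.map_mul, Polynomial.map_mul,
      Polynomial.map_mul, Polynomial.map_pow, map_X, Polynomial.map_ofNat, hK, hD, hS, hL]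
    exact ident p hLG hLM hm
  have hodd : Odd p := ⟨m, hm⟩
  rw [Ff_eq p hDF hm, Kr_eq p hDF hm, Lr_eq p hodd]
  linear_combination hid + Lr p * Dr p m * hpp

/-- the statement II -/
theorem ii : S_LG → S_LM → S_DF → S_II := by
  intro hLG hLM hDF p m _ S _ _ z hm _
  have h := congrArg (aeval z) (ii_poly p hLG hLM hDF hm)
  have hF : aeval z (Ff m (X : (R p)[X])) = Ff m z := by
    simp only [Ff, map_sum, map_mul, map_pow, map_neg, map_one, map_natCast, aeval_X]
  have hK : aeval z (Kf m (X : (R p)[X])) = Kf m z := by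
    simp only [Kf, map_sum, map_mul, map_pow, map_natCast, aeval_X]
  have hR : aeval z (Kr m (X : (R p)[X])) = Kr m z := by
    simp only [Kr, map_sum, map_mul, map_pow, map_neg, map_one, map_natCast, aeval_X]
  simp only [map_mul, map_add, map_sub, map_pow, map_one, map_ofNat, aeval_X, hF, hK, hR] at h
  exact h

end Pool.Agent.Q192.E8
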