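import Pool.Agent.Q267.E8.Stm2

/-!
# Project E8 (helper267), job SN1
-/

set_option autoImplicit false

namespace Pool.Agent.Q192.E8

open Finset Pool.Agent.Q267.CDE Pool.Agent.Q267.MW Pool.Agent.Q267.E8

theorem sn1_aux (p q : ℕ) [Fact p.Prime] (K : Type) [Field K] [CharP K p] (r s : K) (hp : p = 8 * q + 1)
    (hr : r ^ 2 = 2) (hs : s ^ 2 = -2) : 2 ^ (2 * q) * (1 + r) ^ (4 * q) = (-1) ^ q := by
  have hq : q ≠ 0 := by
    rintro rfl
    exact (Fact.out (p := p.Prime)).one_lt.ne' (by omega)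
  have h2 : (2 : K) ≠ 0 := by
    intro h
    have h1 : ((2 : ℕ) : K) = 0 := by exact_mod_cast h
    rw [CharP.cast_eq_zero_iff K p] at h1
    have := Nat.le_of_dvd two_pos h1
    omega
  obtain ⟨z, hz⟩ : ∃ z, z = (r + s) / 2 := ⟨_, rfl⟩
  have hz2 : 2 * z = r + s := by rw [hz, mul_div_cancel₀ _ h2]
  have e1 : z ^ 2 + 1 = r * z := by
    apply mul_left_cancel₀ (mul_ne_zero h2 h2)
    linear_combination (2 * z + r + s) * hz2 - 2 * r * hz2 + hs - hr
  have e4 : z ^ 4 = -1 := by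
    have e2 : z ^ 4 + 1 + 2 * z ^ 2 = r ^ 2 * z ^ 2 := by linear_combination (z ^ 2 + 1 + r * z) * e1
    rw [hr] at e2
    linear_combination e2
  have e8 : z ^ (8 * q) = 1 := by
    rw [show 8 * q = 4 * (2 * q) by ring, pow_mul, e4, pow_mul]
    norm_num
  have hzp : z ^ p = z := by rw [hp, pow_succ, e8, one_mul]
  have hfr : (1 + z) ^ p = 1 + z := by
    have : (1 + z) ^ p = 1 ^ p + z ^ p := add_pow_char (1 : K) z p
    rw [this, one_pow, hzp]
  have hne : 1 + z ≠ 0 := by
    intro h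
    have hz1 : z = -1 := by linear_combination h
    rw [hz1] at e4
    norm_num at e4
    apply h2
    linear_combination e4
  have h8 : (1 + z) ^ (8 * q) = 1 := by
    apply mul_right_cancel₀ hne
    rw [one_mul, ← pow_succ, ← hp, hfr]
  have key : r * (1 + r) * z = (1 + z) ^ 2 := by
    linear_combination z * hr - e1
  have h9 : (r * (1 + r)) ^ (4 * q) * z ^ (4 * q) = 1 := by
    rw [← mul_pow, key, ← pow_mul, show 2 * (4 * q) = 8 * q by ring, h8]
  rw [pow_mul z, e4, mul_pow, show r ^ (4 * q) = 2 ^ (2 * q) by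
    rw [show 4 * q = 2 * (2 * q) by ring, pow_mul, hr]] at h9
  have h10 : ((-1 : K)) ^ q * (-1) ^ q = 1 := by rw [← mul_pow]; norm_num
  calc 2 ^ (2 * q) * (1 + r) ^ (4 * q) = (2 ^ (2 * q) * (1 + r) ^ (4 * q) * (-1) ^ q) * (-1) ^ q := by
        rw [mul_assoc _ _ ((-1 : K) ^ q), h10, mul_one]
    _ = (-1) ^ q := by rw [h9, one_mul]

/-- the statement SN1 -/
theorem sn1 : S_SN1 := by
  intro p q _ K _ _ r hp hr
  obtain ⟨s, hs⟩ := IsAlgClosed.exists_pow_nat_eq (-2 : AlgebraicClosure K) two_pos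
  have : CharP (AlgebraicClosure K) p := charP_of_injective_algebraMap (algebraMap K (AlgebraicClosure K)).injective p
  have h := sn1_aux p q (AlgebraicClosure K) (algebraMap K _ r) s hp (by rw [← map_pow, hr, map_ofNat]) hs
  apply (algebraMap K (AlgebraicClosure K)).injective
  rw [map_mul, map_pow, map_pow, map_pow, map_add, map_neg, map_one, map_ofNat]
  exact h

end Pool.Agent.Q192.E8
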